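import Pool.Agent.X180.Orb.TowerP
import Pool.Agent.X180.Tow.Chain

/-!
Chains of fibrations, some of whose steps are estimated on the variety.
-/

set_option autoImplicit false
set_option linter.overlappingInstances false
set_option linter.unusedSectionVars false

open FF Pool.Agent.W602.GT Pool.Agent.W603.LV Pool.Agent.W619.PQ Pool.Agent.W619.Y
open Pool.Agent.TH585.SV Pool.Agent.Y172 Pool.Agent.Y191 Pool.Agent.X180.Iso Pool.Agent.X180.Tow

namespace Pool.Agent.X180.Orb

variable {K : Type} [Field K] [Algebra ℂ K]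

theorem HasPart.mono {E L : IntermediateField ℂ K} {N d κ : ℕ} {X : Set (Place ℂ K)}
    {δ δ' : Place ℂ K → ℝ} (h : HasPart N X δ E L d κ) (hδ : ∀ P ∈ X, δ P ≤ δ' P) :
    HasPart N X δ' E L d κ := by
  obtain ⟨M, hM, t, ht, v, h1, h2, h3, h4⟩ := h
  refine ⟨M, hM, t, ht, v, h1, h2, h3, fun P hP hPd D hD hDL b => ?_⟩
  refine (h4 P hP hPd D hD hDL b).mono ?_
  have h5 := mul_le_mul_of_nonneg_left (hδ P hP) (Nat.cast_nonneg (α := ℝ) M)
  linarith

/-- the forms of a variety define forms of the subfield -/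
theorem part_of_forms {E L : IntermediateField ℂ K} [Algebra.EssFiniteType ℂ E] (hLE : L ≤ E)
    {N d0 d κ : ℕ} (hN : Algebra.trdeg ℂ K = N) (hE : Algebra.trdeg ℂ E = (d0 + d : ℕ))
    (hL : Algebra.trdeg ℂ L = d0)
    (hη : HasForms (d0 + d) {p | Divisorial (d0 + d) p} (fun _ => 0) (dn E L) d κ)
    (X : Set (Place ℂ K)) : HasPart N X (fun _ => 0) E L d κ := by
  classical
  obtain ⟨M, hM, η, hη, G1, hG1, hind1⟩ := hη
  have hd : Algebra.trdeg (dn E L) E = d := by
    have h5 := _root_.trdeg_add_eq ℂ (dn E L) (A := E)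
    rw [hE, trdeg_dn hLE hL] at h5
    push_cast at h5
    exact Cardinal.eq_of_add_eq_add_left h5 Cardinal.natCast_lt_aleph0
  have hcLE : CharZero (dn E L) :=
    charZero_of_injective_algebraMap (algebraMap ℂ (dn E L)).injective
  obtain ⟨t, Dt, ht, hDt⟩ := exists_crd (k := dn E L) (K := E) hd
  have hη' : ∀ (G : Fin d → Derivation (dn E L) E E) a,
      η a G = (Matrix.of fun i l => G i (t l)).det ^ M * η a Dt := fun G a =>
    pluri_coord ht hDt (hη a).1 G
  have hdet1 : (Matrix.of fun i l => G1 i (t l) : Matrix (Fin d) (Fin d) E).det ^ M ≠ 0 := by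
    intro h0
    apply hG1
    rw [hη', h0, zero_mul]
  have hη0 : η 0 Dt ≠ 0 := by
    intro h0
    apply hG1
    rw [hη', h0, mul_zero]
  have hi1 : AlgebraicIndependent (dn E L) (fun i : Fin κ => η i.succ Dt / η 0 Dt) := by
    have e1 : (fun i : Fin κ => η i.succ G1 / η 0 G1) =
        fun i : Fin κ => η i.succ Dt / η 0 Dt := by
      funext i
      rw [hη' G1 i.succ, hη' G1 0, mul_div_mul_left _ _ hdet1]
    rwa [e1] at hind1
  have hne : ∀ a, η a Dt ≠ 0 := by
    intro a
    refine Fin.cases hη0 (fun i => ?_) a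
    intro h0
    have := hi1.ne_zero i
    rw [h0, zero_div] at this
    exact this rfl
  refine ⟨M, hM, t, ht, fun a => ((η a Dt : E) : K), fun a h0 => hne a (Subtype.ext h0),
    fun a => isAlgebraic_algebraMap (η a Dt : E), ?_, ?_⟩
  · have h1 : AlgebraicIndependent (dn E L)
        (fun i : Fin κ => ((η i.succ Dt / η 0 Dt : E) : K)) :=
      hi1.map' (f := IsScalarTower.toAlgHom (dn E L) E K) (algebraMap E K).injective
    have h2 := ai_up.2 h1
    rw [up_dn hLE] at h2
    exact h2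
  · intro P _ hPd D hD hDL a
    rcases pull_est hN hE (trdeg_dn hLE hL) ht hDt (hη a) hPd hD (fun i f hf => hDL i _ hf)
      with h3 | h3
    · exact Or.inl h3
    · right
      rw [mul_zero, neg_zero]
      exact_mod_cast h3

/-- **Orbifold log canonical arrangements**, for pairs. -/
theorem lc_hor {K' : Type} [Field K'] [Algebra ℂ K'] [Algebra K K'] [IsScalarTower ℂ K K']
    [FiniteDimensional K K'] {c : ℕ} {r q : Fin c → ℕ}
    {A : ∀ j, Fin (q j) → Fin (r j + 1) → K'} {u : (Σ j, Fin (r j)) → K'}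
    {L E : IntermediateField ℂ K} {w : ∀ j, Fin (q j) → ℚ}
    {N d e' lam : ℕ} (hLE : L ≤ E) (hLK : Algebra.trdeg L K = e')
    (hd : Algebra.trdeg (dn E L) E = d) (hA : LcArr (upF K' L) A w)
    (σ : (Σ j, Fin (r j)) ≃ Fin d) (hu : AlgebraicIndependent (upF K' L) u)
    (huE : ∀ s, IsAlgebraic (upF K' E) (u s)) (hw0 : ∀ j i, 0 ≤ w j i)
    (hws : ∀ j, (r j + 1 : ℚ) ≤ ∑ i, w j i)
    {κ : Fin lam → Σ j, Fin (r j)} (hκ : Function.Injective κ)
    (hκs : ∀ i, (r (κ i).1 + 1 : ℚ) < ∑ i', w (κ i).1 i') {X : Set (Place ℂ K)}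
    {δ : Place ℂ K → ℝ} (hδ : ∀ P ∈ X, 0 ≤ δ P)
    (hH : LcHor L A u w {P | P ∈ X ∧ ¬ ∀ f ∈ E, f ≠ 0 → P.ord f = 0} δ) :
    HasPart N X (fun P => hor L δ P - hor E δ P) E L d lam := by
  refine lc_part hLE hLK hd hA σ hu huE hw0 hws hκ hκs
    (fun P hP => sub_nonneg.2 (hor_le hLE (hδ P hP))) ?_
  intro P hP htr Q ε hQ c' e he
  have h1 : hor L δ P - hor E δ P = δ P := by
    unfold hor
    rw [if_pos htr, if_neg hP.2, sub_zero]
  change (ε : ℝ) * (1 - (hor L δ P - hor E δ P)) ≤ _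
  rw [h1]
  exact hH P hP htr Q ε hQ c' e he

/-- **Chains of fibrations.** -/
theorem chain_part {N e' lam' : ℕ} (hN : Algebra.trdeg ℂ K = N) {X : Set (Place ℂ K)}
    {δ : Place ℂ K → ℝ} : ∀ (l : ℕ) (E : Fin (l + 1) → IntermediateField ℂ K)
    (_ : ∀ i : Fin l, E i.castSucc ≤ E i.succ) (D : Fin (l + 1) → ℕ)
    (_ : ∀ i, Algebra.trdeg ℂ (E i) = D i) (e lam : Fin l → ℕ)
    (_ : ∀ i : Fin l, D i.succ = D i.castSucc + e i) (_ : N = D (Fin.last l) + e')
    (_ : ∀ i : Fin l, HasPart N X (fun P => hor (E i.castSucc) δ P - hor (E i.succ) δ P)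
      (E i.succ) (E i.castSucc) (e i) (lam i))
    (_ : HasForms N X (hor (E (Fin.last l)) δ) (E (Fin.last l)) e' lam'),
    HasForms N X (hor (E 0) δ) (E 0) (∑ i, e i + e') (∑ i, lam i + lam') := by
  intro l
  induction l with
  | zero =>
    intro E _ D _ e lam _ _ _ hθ
    simpa using hθ
  | succ l ih =>
    intro E hE D hD e lam he hNe hη hθ
    have h1 : HasForms N X (hor (E (Fin.succ 0)) δ) (E (Fin.succ 0)) (∑ i : Fin l, e i.succ + e')
        (∑ i : Fin l, lam i.succ + lam') :=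
      ih (fun i => E i.succ) (fun i => hE i.succ) (fun i => D i.succ)
        (fun i => hD i.succ) (fun i => e i.succ) (fun i => lam i.succ) (fun i => he i.succ)
        hNe (fun i => hη i.succ) hθ
    have hle : E (Fin.castSucc 0) ≤ E (Fin.succ 0) := hE 0
    have hsum : D (Fin.last (l + 1)) = D (Fin.succ 0) + ∑ i : Fin l, e i.succ := by
      have h2 : ∀ (l : ℕ) (D : Fin (l + 1) → ℕ) (e : Fin l → ℕ),
          (∀ i : Fin l, D i.succ = D i.castSucc + e i) → D (Fin.last l) = D 0 + ∑ i, e i := by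
        intro l
        induction l with
        | zero =>
          intro D e _
          simp
        | succ l ih =>
          intro D e h
          rw [Fin.sum_univ_castSucc, ← add_assoc, ← Fin.succ_last, h]
          congr 1
          exact ih (fun i => D i.castSucc) (fun i => e i.castSucc) fun i => h i.castSucc
      exact h2 l (fun i => D i.succ) (fun i => e i.succ) fun i => he i.succ
    have hKE : Algebra.trdeg (E (Fin.succ 0)) K = (∑ i : Fin l, e i.succ + e' : ℕ) := by
      refine trdeg_rel (d := D (Fin.succ 0)) ?_ (hD _)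
      rw [hN, hNe, hsum, add_assoc]
    have h3 := tower_part hle hKE (δ := hor (E (Fin.castSucc 0)) δ)
      (fun P _ => (sub_add_cancel _ _).le) (hη 0) h1
    rw [Fin.sum_univ_succ, Fin.sum_univ_succ, add_assoc (e 0), add_assoc (lam 0)]
    exact h3

end Pool.Agent.X180.Orb
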