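import Pool.Agent.X180.Orb.LcEst

/-!
Forms of a subfield from an orbifold log canonical arrangement.
-/

set_option autoImplicit false
set_option linter.overlappingInstances false
set_option linter.unusedSectionVars false

open FF Pool.Agent.W602.GT Pool.Agent.W603.LV Pool.Agent.W619.PQ Pool.Agent.TH585.SV
open Pool.Agent.Y172 Pool.Agent.Y191 Pool.Agent.X180.Iso Pool.Agent.X180.Tow

namespace Pool.Agent.X180.Orb

section

variable {K K' : Type} [Field K] [Field K'] [Algebra ℂ K] [Algebra ℂ K'] [Algebra K K']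
  [IsScalarTower ℂ K K'] [FiniteDimensional K K'] {c : ℕ} {r q : Fin c → ℕ}
variable {A : ∀ j, Fin (q j) → Fin (r j + 1) → K'} {u : (Σ j, Fin (r j)) → K'}
variable {L E : IntermediateField ℂ K} {w : ∀ j, Fin (q j) → ℚ}

/-- **Orbifold arrangements.** -/
theorem lc_part {N d e' lam : ℕ} (hLE : L ≤ E) (hLK : Algebra.trdeg L K = e')
    (hd : Algebra.trdeg (dn E L) E = d) (hA : LcArr (upF K' L) A w)
    (σ : (Σ j, Fin (r j)) ≃ Fin d) (hu : AlgebraicIndependent (upF K' L) u)
    (huE : ∀ s, IsAlgebraic (upF K' E) (u s)) (hw0 : ∀ j i, 0 ≤ w j i)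
    (hws : ∀ j, (r j + 1 : ℚ) ≤ ∑ i, w j i)
    {κ : Fin lam → Σ j, Fin (r j)} (hκ : Function.Injective κ)
    (hκs : ∀ i, (r (κ i).1 + 1 : ℚ) < ∑ i', w (κ i).1 i') {X : Set (Place ℂ K)}
    {δ : Place ℂ K → ℝ} (hδ : ∀ P ∈ X, 0 ≤ δ P)
    (hH : LcHor L A u w {P | P ∈ X ∧ ¬ ∀ f ∈ E, f ≠ 0 → P.ord f = 0} δ) :
    HasPart N X δ E L d lam := by
  classical
  have hcL : CharZero L := charZero_of_injective_algebraMap (algebraMap ℂ L).injective
  have hcU : CharZero (upF K' L) :=
    charZero_of_injective_algebraMap (algebraMap ℂ (upF K' L)).injective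
  have hcD : CharZero (dn E L) :=
    charZero_of_injective_algebraMap (algebraMap ℂ (dn E L)).injective
  obtain ⟨t, Dt, ht, -⟩ := exists_crd (k := dn E L) (K := E) hd
  obtain ⟨t', ht'⟩ : ∃ t' : Fin d → K', t' = fun j => algebraMap K K' ((t j : E) : K) :=
    ⟨_, rfl⟩
  have hti : AlgebraicIndependent (upF K' L) t' := by
    rw [ht']
    exact ind_t hLE ht
  obtain ⟨T, hT⟩ : ∃ T : IntermediateField (upF K' L) K', T =
      IntermediateField.adjoin (upF K' L) (Set.range t') := ⟨_, rfl⟩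
  have hET : ∀ z ∈ upF K' E, IsAlgebraic T z := fun z hz => by
    rw [hT, ht']
    exact alg_E hLE ht hz
  have hTE : ∀ z ∈ T, z ∈ upF K' E := fun z hz => by
    rw [hT, ht'] at hz
    exact T_le hLE hz
  -- algebraic over `E`
  have hacl : ∀ z : K', IsAlgebraic (upF K' E) z → IsAlgebraic T z :=
    fun z hz => alg_trans hET hz
  have hacl' : ∀ z : K', IsAlgebraic T z → IsAlgebraic (upF K' E) z :=
    fun z hz => alg_of_le hTE hz
  have huT : ∀ s, IsAlgebraic T (u s) := fun s => hacl _ (huE s)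
  have hAT : ∀ j i k, IsAlgebraic T (A j i k) := fun j i k => alg_base ((hA.1 j i).2 k)
  -- the partial derivatives
  obtain ⟨pd, hpd, hpdT⟩ := exists_par (k := upF K' L) hti
  rw [← hT] at hpdT
  have hchain : ∀ (G : Derivation (upF K' L) K' K') (z : K'), IsAlgebraic T z →
      G z = ∑ j, G (t' j) * pd j z := fun G z hz => by
    rw [hT] at hz
    exact chain_rule hpd G hz
  obtain ⟨J, hJd⟩ : ∃ J : K', J = (Matrix.of fun i l => pd i (u (σ.symm l))).det := ⟨_, rfl⟩
  have hdetu : ∀ G : Fin d → Derivation (upF K' L) K' K',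
      (Matrix.of fun i l => G i (u (σ.symm l))).det = (Matrix.of fun i j => G i (t' j)).det * J := by
    intro G
    rw [hJd, ← Matrix.det_mul]
    congr 1
    ext i l
    rw [Matrix.mul_apply, Matrix.of_apply, hchain (G i) _ (huT _)]
    rfl
  have hSm : ∀ z, z ∈ algebraicClosure T K' ↔ IsAlgebraic T z := fun z =>
    mem_algebraicClosure_iff
  have hJT : IsAlgebraic T J := by
    rw [← hSm, hJd, Matrix.det_apply']
    refine sum_mem fun τ _ => mul_mem (intCast_mem _ _) (prod_mem fun i _ => ?_)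
    rw [hSm]
    exact hpdT _ _ (huT _)
  -- the forms
  obtain ⟨S, hS⟩ := exists_field hu
  have hle : upF K' L ≤ S.restrictScalars ℂ := base_le S
  have hA2 : LcArr (S.restrictScalars ℂ) A w :=
    ⟨fun j i => ⟨(hA.1 j i).1, fun k => alg_mono hle ((hA.1 j i).2 k)⟩, hA.2⟩
  obtain ⟨M, hM, hl, v, Jb, hadm, hJ, G0, hG0, hind⟩ :=
    lc_forms (L := S.restrictScalars ℂ) hA2 σ (tb_rs hS) hw0 hws hκ hκs
  obtain ⟨C, hC⟩ : ∃ C : Fin (lam + 1) → K', C = fun b => ∏ t, cdet A (Jb b t) := ⟨_, rfl⟩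
  obtain ⟨den, hden⟩ : ∃ den : Fin (lam + 1) → K',
      den = fun b => ∏ j, ∏ i, lmv A u j i ^ v b j i := ⟨_, rfl⟩
  have hmovf : ∀ b (G : Fin d → Derivation ℂ K' K'),
      movf σ A u M (v b) (∏ t, cdet A (Jb b t)) G =
        C b * (Matrix.of fun i l => G i (u (σ.symm l))).det ^ M / den b := by
    intro b G
    rw [hC, hden]
    rfl
  obtain ⟨f, hf⟩ : ∃ f : Fin (lam + 1) → K', f = fun b => C b * J ^ M / den b := ⟨_, rfl⟩
  have hmovt : ∀ b (G : Fin d → Derivation (upF K' L) K' K'),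
      movf σ A u M (v b) (∏ t, cdet A (Jb b t)) (fun i => (G i).restrictScalars ℂ) =
        f b * (Matrix.of fun i j => G i (t' j)).det ^ M := by
    intro b G
    have h1 : (Matrix.of fun i l => ((G i).restrictScalars ℂ) (u (σ.symm l))).det =
        (Matrix.of fun i j => G i (t' j)).det * J := hdetu G
    rw [hmovf, h1, hf]
    ring
  have hden0 : ∀ b, den b ≠ 0 := fun b => by
    rw [hden]
    exact Finset.prod_ne_zero_iff.2 fun j _ => Finset.prod_ne_zero_iff.2 fun i _ =>
      pow_ne_zero _ (hl j i)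
  -- the frame `G0` over `L`
  have hk0 : ∀ i, Kills ((G0 i).restrictScalars ℂ) (upF K' L) := fun i z hz =>
    (G0 i).map_algebraMap (⟨z, hle hz⟩ : (S.restrictScalars ℂ : IntermediateField ℂ K'))
  have hG0' : ∀ b, movf σ A u M (v b) (∏ t, cdet A (Jb b t))
      (fun i => (G0 i).restrictScalars ℂ) =
        f b * (Matrix.of fun i j => (G0 i) (t' j)).det ^ M := fun b =>
    hmovt b fun i => liftD _ _ (hk0 i)
  have hdet0 : (Matrix.of fun i j => (G0 i) (t' j)).det ^ M ≠ 0 := by
    intro h0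
    apply hG0
    rw [hG0', h0, mul_zero]
  have hratio : ∀ i : Fin lam, movf σ A u M (v i.succ) (∏ t, cdet A (Jb i.succ t))
      (fun i => (G0 i).restrictScalars ℂ) / movf σ A u M (v 0) (∏ t, cdet A (Jb 0 t))
      (fun i => (G0 i).restrictScalars ℂ) = f i.succ / f 0 := by
    intro i
    rw [hG0', hG0', mul_div_mul_right _ _ hdet0]
  have hind' : AlgebraicIndependent L (fun i : Fin lam => f i.succ / f 0) := by
    have h1 : AlgebraicIndependent S (fun i : Fin lam => f i.succ / f 0) := by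
      have h2 := hind
      rw [funext hratio] at h2
      exact ai_rs.1 h2
    have h2 : AlgebraicIndependent (upF K' L) (fun i : Fin lam => f i.succ / f 0) :=
      h1.restrictScalars (algebraMap (upF K' L) S).injective
    exact ai_up.1 h2
  have hf00 : f 0 ≠ 0 := by
    intro h0
    apply hG0
    rw [hG0', h0, zero_mul]
  have hf0 : ∀ b, f b ≠ 0 := by
    intro b
    refine Fin.cases hf00 (fun i => ?_) b
    intro h0
    have := hind'.ne_zero i
    rw [h0, zero_div] at this
    exact this rfl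
  have hlmT : ∀ j i, IsAlgebraic T (lmv A u j i) := by
    intro j i
    rw [← hSm, lmv_eq]
    exact add_mem ((hSm _).2 (hAT _ _ _)) (sum_mem fun k _ =>
      mul_mem ((hSm _).2 (hAT _ _ _)) ((hSm _).2 (huT _)))
  have hCT : ∀ I : ∀ j, Fin (r j + 1) → Fin (q j), IsAlgebraic T (cdet A I) := by
    intro I
    rw [← hSm]
    unfold cdet
    refine prod_mem fun j _ => ?_
    rw [Matrix.det_apply']
    refine sum_mem fun τ _ => mul_mem (intCast_mem _ _) (prod_mem fun i _ => ?_)
    exact (hSm _).2 (hAT _ _ _)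
  have hfT : ∀ b, IsAlgebraic T (f b) := by
    intro b
    rw [← hSm, hf, hC, hden]
    exact div_mem (mul_mem (prod_mem fun t _ => (hSm _).2 (hCT _)) (pow_mem ((hSm _).2 hJT) _))
      (prod_mem fun j _ => prod_mem fun i _ => pow_mem ((hSm _).2 (hlmT j i)) _)
  have hfE : ∀ b, IsAlgebraic E (f b) := fun b =>
    (hacl' _ (hfT b)).of_ringHom_of_comp_eq (upE K' E) (RingHom.id K') (upE K' E).surjective
      Function.injective_id upE_comp
  obtain ⟨R, s, hR, hs0, hsE, hsi, hs⟩ := desc_alg (K := K) L E hf0 hfE hind'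
  refine ⟨M * R, Nat.mul_pos hM (by omega), t, ht, s, hs0, hsE, hsi, ?_⟩
  intro P hP hPd D hD hDL b
  obtain ⟨d0, hd0⟩ : ∃ d0, d0 = (mtx (fun j => ((t j : E) : K)) D).det := ⟨_, rfl⟩
  rw [← hd0]
  by_cases hd00 : d0 = 0
  · left
    rw [hd00, zero_pow (Nat.mul_pos hM (by omega)).ne', zero_mul]
  right
  have hd0' : algebraMap K K' d0 ≠ 0 := by
    rw [Ne, map_eq_zero]
    exact hd00
  obtain ⟨G, hG⟩ : ∃ G : Fin d → Derivation L K K, ∀ i f, G i f = D i f :=
    ⟨fun i => lft L (D i) (hDL i), fun _ _ => rfl⟩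
  choose G' hG' using fun i => exists_liftF (K' := K') hLK (G i)
  have hdet : (Matrix.of fun i j => G' i (t' j)).det = algebraMap K K' d0 := by
    rw [hd0, RingHom.map_det]
    congr 1
    ext i j
    rw [Matrix.of_apply, RingHom.mapMatrix_apply, Matrix.map_apply, ht', hG', hG]
    rfl
  have hGr : ∀ i f, P.Reg f → P.Reg (G i f) := fun i f hf => by
    rw [hG]
    exact hD i f hf
  have hM0 : (0 : ℝ) ≤ M := Nat.cast_nonneg _
  have hkey : ∀ (Q : Place ℂ K') (ε : ℕ), Over Q P ε → ∀ l,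
      (ε : ℝ) * (-(M * δ P) - M * P.ord d0) ≤ Q.ord (f l) := by
    intro Q ε hQ l
    have hε0 : (0 : ℝ) ≤ ε := Nat.cast_nonneg _
    have h2 : f l * algebraMap K K' d0 ^ M = 0 ∨
        -((M : ℝ) * (ε * δ P)) ≤ (Q.ord (f l * algebraMap K K' d0 ^ M) : ℝ) := by
      by_cases hE : ∀ f ∈ E, f ≠ 0 → P.ord f = 0
      · have hup : ∀ f ∈ upF K' E, f ≠ 0 → Q.ord f = 0 := by
          rintro f hf hf0
          obtain ⟨a, ha, rfl⟩ := mem_upF.1 hf
          have ha0 : a ≠ 0 := fun h => hf0 (by rw [h, map_zero])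
          rw [hQ.2, hE a ha ha0, mul_zero]
        have h3 : Ge Q 0 (f l) := triv_ge hup (hacl' _ (hfT l))
        have h4 : Ge P 0 d0 := by
          rw [hd0]
          refine ge_det' P _ 0 (fun _ _ => 0) (fun i j => ?_) fun _ => by simp
          refine (reg_iff_ge _ _).1 (hD i _ ?_)
          by_cases h0 : ((t j : E) : K) = 0
          · exact Or.inl h0
          · exact Or.inr (hE _ (t j).2 h0).ge
        have h5 : Ge Q 0 (algebraMap K K' d0) := by
          have := (over_ge hQ).2 h4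
          rwa [mul_zero] at this
        have h6 := h3.mul (h5.pow M)
        rw [mul_zero, add_zero] at h6
        rcases h6 with h6 | h6
        · exact Or.inl h6
        right
        have h7 : (0 : ℝ) ≤ (Q.ord (f l * algebraMap K K' d0 ^ M) : ℝ) := by exact_mod_cast h6
        have h8 := mul_nonneg hM0 (mul_nonneg hε0 (hδ P hP))
        linarith
      · have h3 := movf_est (J := Jb l) hA hw0 hws hl σ hQ (hδ P hP)
          (fun htr c' e he => hH P ⟨hP, hE⟩ htr Q ε hQ c' e he) hGr hG' (fun I hI => ?_)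
          (hadm l) (hJ l)
        · rwa [hmovt l G', hdet] at h3
        · push Not at hE
          obtain ⟨a, haE, ha0, hao⟩ := hE
          refine ⟨algebraMap K K' a, by rw [Ne, map_eq_zero]; exact ha0, ?_, ?_⟩
          · rw [hQ.2]
            exact mul_ne_zero (by exact_mod_cast hQ.1.ne') hao
          · refine alg_of_indep hti hI (fun l => ?_) ?_
            · rw [← hT, ← hSm]
              exact div_mem ((hSm _).2 (hlmT _ _)) ((hSm _).2 (hlmT _ _))
            · rw [← hT]
              exact hET _ (mem_upF.2 ⟨a, haE, rfl⟩)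
    have h4 := h2.resolve_left (mul_ne_zero (hf0 l) (pow_ne_zero _ hd0'))
    rw [Q.ord_mul (hf0 l) (pow_ne_zero _ hd0'), Q.ord_pow, hQ.2] at h4
    push_cast at h4
    linarith
  have h5 := hs P _ hkey b
  rw [P.ord_mul (pow_ne_zero _ hd00) (hs0 b), P.ord_pow]
  push_cast
  linarith

end

end Pool.Agent.X180.Orb
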