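import Pool.Agent.X180.Orb.LcPart

/-!
Independence in steps.
-/

set_option autoImplicit false
set_option linter.overlappingInstances false
set_option linter.unusedSectionVars false

open Pool.Agent.Y191 Pool.Agent.X180.Iso Pool.Agent.X180.Tow

namespace Pool.Agent.X180.Orb

variable {F : Type} [Field F] [Algebra ℂ F]

/-- a subfield with the elements which are algebraic -/
def clE {E A : IntermediateField ℂ F} (hA : ∀ z, z ∈ A ↔ IsAlgebraic E z) :
    algebraicClosure E F ≃+* A where
  toFun w := ⟨w, (hA _).2 (mem_algebraicClosure_iff.1 w.2)⟩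
  invFun w := ⟨w, mem_algebraicClosure_iff.2 ((hA _).1 w.2)⟩
  left_inv _ := rfl
  right_inv _ := rfl
  map_mul' _ _ := rfl
  map_add' _ _ := rfl

theorem clE_comp {E A : IntermediateField ℂ F} (hA : ∀ z, z ∈ A ↔ IsAlgebraic E z) :
    RingHom.comp (algebraMap A F) (clE hA : algebraicClosure E F →+* A) =
      RingHom.comp (RingHom.id F) (algebraMap (algebraicClosure E F) F) := rfl

theorem ai_cl {E A : IntermediateField ℂ F} (hA : ∀ z, z ∈ A ↔ IsAlgebraic E z) {ι : Type}
    {y : ι → F} (hy : AlgebraicIndependent E y) : AlgebraicIndependent A y :=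
  (algebraicIndependent_ringHom_iff_of_comp_eq (clE hA) (RingHom.id F) Function.injective_id
    (clE_comp hA)).2 hy.algebraicClosure

theorem ai_sub {L A : IntermediateField ℂ F} (hLA : L ≤ A) {ι κ : Type} {x : ι → A}
    (hx : AlgebraicIndependent L (fun i => (x i : F))) {y : κ → F}
    (hy : AlgebraicIndependent A y) :
    AlgebraicIndependent L (Sum.elim y fun i => (x i : F)) := by
  have h1 : AlgebraicIndependent (dn A L) (fun i => (x i : F)) := by
    rw [← up_dn hLA] at hx
    exact ai_up.1 hx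
  have h2 : AlgebraicIndependent (dn A L) x :=
    AlgebraicIndependent.of_comp (IsScalarTower.toAlgHom (dn A L) A F) h1
  have h3 := h2.sumElim_comp hy
  rw [← up_dn hLA]
  exact ai_up.2 h3

theorem sum_ind {L E : IntermediateField ℂ F} (hLE : L ≤ E) {ι κ : Type} {x : ι → F}
    (hx : AlgebraicIndependent L x) (hxE : ∀ i, IsAlgebraic E (x i)) {y : κ → F}
    (hy : AlgebraicIndependent E y) : AlgebraicIndependent L (Sum.elim y x) := by
  obtain ⟨A, hA⟩ : ∃ A : IntermediateField ℂ F, ∀ z, z ∈ A ↔ IsAlgebraic E z :=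
    ⟨Acl E, fun z => mem_acl⟩
  have hLA : L ≤ A := fun z hz => (hA z).2 (isAlgebraic_algebraMap (⟨z, hLE hz⟩ : E))
  exact ai_sub hLA (x := fun i => (⟨x i, (hA _).2 (hxE i)⟩ : A)) hx (ai_cl hA hy)

end Pool.Agent.X180.Orb
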