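import Pool.Agent.X180.Orb.Det
import Pool.Agent.W619.Y.Loc

/-!
Derivations and algebraic closures of subfields.
-/

set_option autoImplicit false
set_option linter.overlappingInstances false
set_option linter.unusedSectionVars false

open FF Pool.Agent.X180.Iso

namespace Pool.Agent.X180.Orb

variable {k F : Type} [Field k] [Field F] [Algebra k F] [CharZero k]

/-- A derivation which preserves a subfield preserves its algebraic closure. -/
theorem der_acl {T : IntermediateField k F} {D : Derivation k F F} (hD : ∀ a ∈ T, D a ∈ T)
    {z : F} (hz : IsAlgebraic T z) : IsAlgebraic T (D z) := by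
  by_contra h
  have hcT : CharZero T := charZero_of_injective_algebraMap (algebraMap k T).injective
  obtain ⟨Θ, hΘ⟩ := Pool.Agent.W619.Y.exists_der (k := T) (L := F) (u := D z) h
  have h1 : Pool.Agent.Y172.Kills ⁅Θ.restrictScalars k, D⁆ T := by
    intro a ha
    rw [Derivation.commutator_apply]
    have h2 : (Θ.restrictScalars k) (D a) = 0 := Θ.map_algebraMap (⟨D a, hD a ha⟩ : T)
    have h3 : (Θ.restrictScalars k) a = 0 := Θ.map_algebraMap (⟨a, ha⟩ : T)
    rw [h2, h3, map_zero, sub_zero]
  have h2 := Pool.Agent.Y172.kills_alg h1 hz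
  have h3 : Pool.Agent.Y172.Kills (Θ.restrictScalars k) T := fun a ha =>
    Θ.map_algebraMap (⟨a, ha⟩ : T)
  have h4 := Pool.Agent.Y172.kills_alg h3 hz
  rw [Derivation.commutator_apply, h4, map_zero, sub_zero] at h2
  have h5 : (Θ.restrictScalars k) (D z) = 1 := hΘ
  rw [h5] at h2
  exact one_ne_zero h2

/-- Partial derivatives for independent elements: there are derivations with given values, which
preserve the field which is generated by the elements if the values are in this field. -/
theorem exists_par {d : ℕ} {t : Fin d → F} (ht : AlgebraicIndependent k t) :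
    ∃ D : Fin d → Derivation k F F, (∀ i j, D i (t j) = if i = j then 1 else 0) ∧
      ∀ i z, IsAlgebraic (IntermediateField.adjoin k (Set.range t)) z →
        IsAlgebraic (IntermediateField.adjoin k (Set.range t)) (D i z) := by
  classical
  obtain ⟨S, hS⟩ := exists_field ht
  have hcS : CharZero S := charZero_of_injective_algebraMap (algebraMap k S).injective
  have h1 : ∀ i : Fin d, ∃ D : Derivation S F F, ∀ j, D (t j) = if i = j then 1 else 0 :=
    fun i => Pool.Agent.W602.GT.exists_der t hS _
  choose D hD using h1
  refine ⟨fun i => (D i).restrictScalars k, fun i j => hD i j, fun i z hz => der_acl ?_ hz⟩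
  intro a ha
  induction ha using IntermediateField.adjoin_induction with
  | mem x hx =>
    obtain ⟨j, rfl⟩ := hx
    change D i (t j) ∈ _
    rw [hD]
    split_ifs
    · exact one_mem _
    · exact zero_mem _
  | algebraMap x =>
    change ((D i).restrictScalars k) (algebraMap k F x) ∈ _
    rw [Derivation.map_algebraMap]
    exact zero_mem _
  | add x y _ _ h1 h2 =>
    rw [map_add]
    exact add_mem h1 h2
  | inv x hx h1 =>
    rw [Derivation.leibniz_inv, smul_eq_mul]
    exact mul_mem (neg_mem (pow_mem (inv_mem hx) 2)) h1
  | mul x y hx hy h1 h2 =>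
    rw [Derivation.leibniz, smul_eq_mul, smul_eq_mul]
    exact add_mem (mul_mem hx h2) (mul_mem hy h1)

/-- the chain rule -/
theorem chain_rule {d : ℕ} {t : Fin d → F} {D : Fin d → Derivation k F F}
    (hD : ∀ i j, D i (t j) = if i = j then 1 else 0) (G : Derivation k F F) {z : F}
    (hz : IsAlgebraic (IntermediateField.adjoin k (Set.range t)) z) :
    G z = ∑ j, G (t j) * D j z := by
  classical
  have h1 : Pool.Agent.Y172.Kills (G - ∑ j, G (t j) • D j)
      (IntermediateField.adjoin k (Set.range t)) := by
    intro a ha
    have h2 : ∀ j, (G - ∑ j, G (t j) • D j) (t j) = 0 := by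
      intro l
      rw [Derivation.sub_apply, Pool.Agent.Y172.sum_smul_apply]
      simp only [hD, mul_ite, mul_one, mul_zero, Finset.sum_ite_eq', Finset.mem_univ, if_true,
        sub_self]
    obtain ⟨H, hH⟩ : ∃ H : Derivation k F F, H = G - ∑ j, G (t j) • D j := ⟨_, rfl⟩
    rw [← hH] at h2 ⊢
    induction ha using IntermediateField.adjoin_induction with
    | mem x hx =>
      obtain ⟨j, rfl⟩ := hx
      exact h2 j
    | algebraMap x => exact H.map_algebraMap x
    | add x y _ _ h3 h4 => rw [map_add, h3, h4, add_zero]
    | inv x _ h3 => rw [Derivation.leibniz_inv, h3, smul_zero]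
    | mul x y _ _ h3 h4 => rw [Derivation.leibniz, h3, h4, smul_zero, smul_zero, add_zero]
  have h2 := Pool.Agent.Y172.kills_alg h1 hz
  rw [Derivation.sub_apply, Pool.Agent.Y172.sum_smul_apply] at h2
  exact sub_eq_zero.1 h2

end Pool.Agent.X180.Orb
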