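import Pool.Agent.X180.Iso.Free

/-!
Field theory for the forms of a subfield.
-/

set_option autoImplicit false
set_option linter.overlappingInstances false

open IntermediateField

namespace Pool.Agent.X180.Orb

open Pool.Agent.X180.Iso

variable {k F : Type} [Field k] [Field F] [Algebra k F]

open scoped IntermediateField.algebraAdjoinAdjoin in
theorem trdeg_adjoin {p : ℕ} {t : Fin p → F} (ht : AlgebraicIndependent k t) :
    Algebra.trdeg k (adjoin k (Set.range t)) = p := by
  have e := ht.aevalEquiv
  have h1 : Algebra.trdeg k (Algebra.adjoin k (Set.range t)) = p := by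
    rw [← e.trdeg_eq, MvPolynomial.trdeg_of_isDomain, Cardinal.lift_id, Cardinal.mk_fin]
  have h2 : Algebra.IsAlgebraic (Algebra.adjoin k (Set.range t))
      (adjoin k (Set.range t)) := inferInstance
  have h3 := trdeg_add_eq k (Algebra.adjoin k (Set.range t))
    (A := adjoin k (Set.range t))
  rw [_root_.trdeg_eq_zero_iff.2 h2, add_zero, h1] at h3
  exact h3.symm

theorem trdeg_of_alg {U S : IntermediateField k F} (h : U ≤ S)
    (hS : ∀ x ∈ S, IsAlgebraic U x) : Algebra.trdeg k S = Algebra.trdeg k U := by
  let _ : Algebra U S := (inclusion h).toRingHom.toAlgebra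
  have t1 : IsScalarTower k U S := IsScalarTower.of_algebraMap_eq fun x => rfl
  have t2 : Algebra.IsAlgebraic U S := ⟨fun x => by
    refine IsAlgebraic.of_ringHom_of_comp_eq (R := U) (S := U) (A := S) (B := F) (a := x)
      (hS x x.2) (f := RingHom.id U) (g := S.val.toRingHom)
      Function.surjective_id S.val.injective rfl⟩
  have h1 := _root_.trdeg_add_eq k U (A := S)
  rw [trdeg_eq_zero_iff.2 t2, add_zero] at h1
  exact h1.symm

/-- `d` independent elements of the closure of `d` elements generate it. -/
theorem alg_of_indep {d : ℕ} {t f : Fin d → F} (ht : AlgebraicIndependent k t)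
    (hf : AlgebraicIndependent k f) (hft : ∀ l, IsAlgebraic (adjoin k (Set.range t)) (f l)) {z : F}
    (hz : IsAlgebraic (adjoin k (Set.range t)) z) : IsAlgebraic (adjoin k (Set.range f)) z := by
  obtain ⟨T, hT⟩ : ∃ T : IntermediateField k F, T = adjoin k (Set.range t) := ⟨_, rfl⟩
  rw [← hT] at hft hz
  have hS : Algebra.trdeg k (Acl T) = d := by
    rw [trdeg_of_alg (le_acl T) fun x hx => mem_acl.1 hx, hT]
    exact trdeg_adjoin ht
  let f' : Fin d → Acl T := fun l => ⟨f l, mem_acl.2 (hft l)⟩
  have hf' : AlgebraicIndependent k f' := AlgebraicIndependent.of_comp (Acl T).val hf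
  have hb : IsTranscendenceBasis k f' := by
    refine hf'.isTranscendenceBasis_of_trdeg_le_of_finite ?_
    rw [hS, Cardinal.mk_fin]
  have h1 : IsAlgebraic (adjoin k (Set.range f')) (⟨z, mem_acl.2 hz⟩ : Acl T) :=
    hb.isAlgebraic_field.isAlgebraic _
  have h3 : ∀ w ∈ adjoin k (Set.range f'), (w : F) ∈ adjoin k (Set.range f) := by
    intro w hw
    have h4 : (w : F) ∈ (adjoin k (Set.range f')).map (Acl T).val := ⟨w, hw, rfl⟩
    rw [adjoin_map] at h4
    have h5 : (Acl T).val '' Set.range f' = Set.range f := by
      rw [← Set.range_comp]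
      rfl
    rwa [h5] at h4
  let i : adjoin k (Set.range f') →+* adjoin k (Set.range f) :=
    (((Acl T).val : Acl T →ₐ[k] F).toRingHom.comp
      (adjoin k (Set.range f')).val.toRingHom).codRestrict
      (adjoin k (Set.range f)).toSubfield fun w => h3 w w.2
  exact h1.ringHom_of_comp_eq i (Acl T).val.toRingHom i.injective rfl

/-- Independent elements are a transcendence basis over some larger field. -/
theorem exists_field {ι : Type} {u : ι → F} (hu : AlgebraicIndependent k u) :
    ∃ S : IntermediateField k F, IsTranscendenceBasis S u := by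
  classical
  obtain ⟨s, hs, hb⟩ := exists_isTranscendenceBasis_superset (R := k) (s := Set.range u)
    hu.coe_range
  obtain ⟨z, hz⟩ : ∃ z : Set F, z = s \ Set.range u := ⟨_, rfl⟩
  have hsz : s = Set.range u ∪ z := by
    rw [hz, Set.union_sdiff_cancel hs]
  have hzn : ∀ a ∈ z, a ∉ Set.range u := fun a ha => by
    rw [hz] at ha
    exact ha.2
  have hinj : Function.Injective u := hu.injective
  have hind : AlgebraicIndependent k (Sum.elim u (fun a : z => (a : F))) := by
    have h1 : AlgebraicIndependent k ((↑) : s → F) := hb.1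
    let e : (ι ⊕ z) → s := Sum.elim (fun i => ⟨u i, hs ⟨i, rfl⟩⟩) fun a =>
      ⟨a, by rw [hsz]; exact Or.inr a.2⟩
    have he : Function.Injective e := by
      rintro (a | a) (b | b) h
      · exact congrArg Sum.inl (hinj (congrArg Subtype.val h))
      · exact absurd ⟨a, congrArg Subtype.val h⟩ (hzn b b.2)
      · exact absurd ⟨b, (congrArg Subtype.val h).symm⟩ (hzn a a.2)
      · have h2 : ((e (Sum.inr a) : s) : F) = e (Sum.inr b) := by rw [h]
        exact congrArg Sum.inr (Subtype.ext h2)
    have h2 := h1.comp e he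
    convert h2 using 1
    funext a
    rcases a with a | a <;> rfl
  obtain ⟨h1, h2⟩ := AlgebraicIndependent.sumElim_iff.1 hind
  refine ⟨adjoin k z, ?_⟩
  have hzr : Set.range (fun a : z => (a : F)) = z := Subtype.range_coe
  rw [hzr] at h2
  have h3 : AlgebraicIndependent (adjoin k z) u := algebraicIndependent_adjoin_iff.2 h2
  rw [h3.isTranscendenceBasis_iff_isAlgebraic, ← isAlgebraic_adjoin_iff_top]
  refine ⟨fun w => ?_⟩
  have h4 : IsAlgebraic (adjoin k s) w := by
    have h5 := hb.isAlgebraic_field
    rw [Subtype.range_coe] at h5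
    exact h5.isAlgebraic w
  have h5 : ∀ w ∈ adjoin k s, w ∈ adjoin (adjoin k z) (Set.range u) := by
    have h6 : adjoin k s ≤ (adjoin (adjoin k z) (Set.range u)).restrictScalars k := by
      rw [adjoin_le_iff, hsz]
      rintro w (hw | hw)
      · exact subset_adjoin (adjoin k z) _ hw
      · exact (adjoin (adjoin k z) (Set.range u)).algebraMap_mem ⟨w, subset_adjoin _ _ hw⟩
    exact h6
  let i : adjoin k s →+* adjoin (adjoin k z) (Set.range u) :=
    ((adjoin k s).val.toRingHom).codRestrict
      (adjoin (adjoin k z) (Set.range u)).toSubfield fun w => h5 w w.2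
  exact h4.ringHom_of_comp_eq i (RingHom.id F) i.injective rfl

end Pool.Agent.X180.Orb
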