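import Pool.Agent.X180.Orb.Alg
import Pool.Agent.Y191.CorPush

/-!
The descent of functions from a finite extension, with algebraicity over a subfield.
-/

set_option autoImplicit false
set_option linter.overlappingInstances false
set_option linter.unusedSectionVars false

open FF Pool.Agent.W602.GT Pool.Agent.W603.LV Pool.Agent.W619.PQ Pool.Agent.W619.Y
open Pool.Agent.TH585.SV Pool.Agent.Y172 Pool.Agent.Y191

namespace Pool.Agent.X180.Orb

section desc

variable {k K L : Type} [Field k] [CharZero k] [Field K] [Field L] [Algebra k K] [Algebra k L]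
  [Algebra K L] [IsScalarTower k K L] [FiniteDimensional K L]

/-- the descent of functions with ratios which are independent over a subfield -/
theorem desc_alg (M T : IntermediateField k K) {h : ℕ} {f : Fin (h + 1) → L} (hf : ∀ l, f l ≠ 0)
    (hT : ∀ l, IsAlgebraic T (f l))
    (hind : AlgebraicIndependent M (fun l : Fin h => f l.succ / f 0)) :
    ∃ (R : ℕ) (s : Fin (h + 1) → K), 1 ≤ R ∧ (∀ j, s j ≠ 0) ∧ (∀ j, IsAlgebraic T (s j)) ∧
      AlgebraicIndependent M (fun j : Fin h => s j.succ / s 0) ∧
      ∀ (P : Place k K) (c : ℝ),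
        (∀ (Q : Place k L) (e : ℕ), Over Q P e → ∀ l, (e : ℝ) * c ≤ Q.ord (f l)) →
          ∀ j, (R : ℝ) * c ≤ P.ord (s j) := by
  classical
  have hcK : CharZero K := charZero_of_injective_algebraMap (algebraMap k K).injective
  have hcM : CharZero M := charZero_of_injective_algebraMap (algebraMap k M).injective
  let Ω := IntermediateField.normalClosure K L (AlgebraicClosure L)
  let ik : Algebra k Ω := ((algebraMap K Ω).comp (algebraMap k K)).toAlgebra
  have htow : IsScalarTower k K Ω := IsScalarTower.of_algebraMap_eq fun _ => rfl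
  have hfin : FiniteDimensional K Ω := inferInstance
  have hnorm : Normal K Ω := inferInstance
  have hgal : IsGalois K Ω := IsGalois.mk
  obtain ⟨i0⟩ : Nonempty (L →ₐ[K] Ω) := ⟨IsScalarTower.toAlgHom K L Ω⟩
  have hι : Fintype (L →ₐ[K] Ω) := Fintype.ofFinite _
  have htM : IsScalarTower M K Ω := inferInstance
  have htML : IsScalarTower M K L := inferInstance
  have htT : IsScalarTower T K Ω := inferInstance
  have htTL : IsScalarTower T K L := inferInstance
  obtain ⟨R, t, r, q, hR, hrq, hne, hai⟩ := Pool.Agent.W513.PG.main M Ω (L →ₐ[K] Ω) i0 h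
    (fun σ l => σ (f l)) (fun l => by
      rw [Ne, map_eq_zero]
      exact hf l) (by
      have h1 : AlgebraicIndependent M (fun l : Fin h => (i0.restrictScalars M)
          (f l.succ / f 0)) := hind.map' (f := i0.restrictScalars M) i0.injective
      convert h1 using 1
      funext l
      rw [AlgHom.restrictScalars_apply, map_div₀])
  -- the elements are invariant
  have hfix : ∀ l r, ∃ z : K, algebraMap K Ω z = esy (fun σ : L →ₐ[K] Ω => σ (f l)) r := by
    intro l r
    refine (IsGalois.mem_range_algebraMap_iff_fixed _).2 fun g => ?_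
    have h1 : g (esy (fun σ : L →ₐ[K] Ω => σ (f l)) r) =
        esy (fun σ : L →ₐ[K] Ω => g (σ (f l))) r := by
      unfold esy
      rw [map_sum]
      exact Finset.sum_congr rfl fun T _ => map_prod _ _ _
    let s : (L →ₐ[K] Ω) ≃ (L →ₐ[K] Ω) :=
      { toFun := fun σ => (g : Ω →ₐ[K] Ω).comp σ
        invFun := fun σ => (g.symm : Ω →ₐ[K] Ω).comp σ
        left_inv := fun σ => by
          ext x
          simp
        right_inv := fun σ => by
          ext x
          simp }
    rw [h1]
    exact esy_equiv (L := Ω) s (fun σ => σ (f l)) r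
  choose z hz using hfix
  have hz0 : ∀ j, z (t j) (r j) ≠ 0 := fun j h0 => hne j (by
    have h1 := hz (t j) (r j)
    rw [h0, map_zero] at h1
    exact h1.symm)
  have hzT : ∀ l r, IsAlgebraic T (z l r) := by
    intro l r
    have h1 : IsAlgebraic T (algebraMap K Ω (z l r)) := by
      rw [hz, ← mem_algebraicClosure_iff]
      unfold esy
      refine sum_mem fun S _ => prod_mem fun σ _ => ?_
      rw [mem_algebraicClosure_iff]
      exact (hT l).algHom (σ.restrictScalars T)
    exact (isAlgebraic_algebraMap_iff (algebraMap K Ω).injective).1 h1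
  refine ⟨R, fun j => z (t j) (r j) ^ q j, hR, fun j => pow_ne_zero _ (hz0 j),
    fun j => (hzT _ _).pow _, ?_, fun P c hc j => ?_⟩
  · have h1 : AlgebraicIndependent M (fun j : Fin h => (IsScalarTower.toAlgHom M K Ω)
        (z (t j.succ) (r j.succ) ^ q j.succ / z (t 0) (r 0) ^ q 0)) := by
      convert hai using 1
      funext j
      change algebraMap K Ω _ = _
      rw [map_div₀, map_pow, map_pow, hz, hz]
    exact AlgebraicIndependent.of_comp (IsScalarTower.toAlgHom M K Ω) h1
  · obtain ⟨Q', e', hQ'⟩ := exists_above (k := k) (L := Ω) P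
    have h1 : ∀ σ : L →ₐ[K] Ω, Ge Q' ⌈(e' : ℝ) * c⌉ (σ (f (t j))) := by
      intro σ
      obtain ⟨Q, e, e1, hQ, he1, hee, hord⟩ := below_emb σ hQ'
      have h2 := hc Q e hQ (t j)
      right
      rw [Int.ceil_le, hord, hee]
      push_cast
      have : (0 : ℝ) ≤ e1 := Nat.cast_nonneg _
      calc (e1 : ℝ) * e * c = e1 * (e * c) := by ring
        _ ≤ e1 * (Q.ord (f (t j)) : ℝ) := mul_le_mul_of_nonneg_left h2 this
    have h2 := ge_esy (L := Ω) h1 (r j)
    rw [← hz] at h2
    have h3 := h2.resolve_left (by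
      rw [map_eq_zero]
      exact hz0 j)
    rw [hQ'.2] at h3
    have h4 : ((r j * ⌈(e' : ℝ) * c⌉ : ℤ) : ℝ) ≤ ((e' * P.ord (z (t j) (r j)) : ℤ) : ℝ) := by
      exact_mod_cast h3
    push_cast at h4
    have h5 := Int.le_ceil ((e' : ℝ) * c)
    have he' : (0 : ℝ) < e' := by exact_mod_cast hQ'.1
    have h6 : (r j : ℝ) * c ≤ P.ord (z (t j) (r j)) := by
      have h7 := mul_le_mul_of_nonneg_left h5 (Nat.cast_nonneg (α := ℝ) (r j))
      have h8 : (e' : ℝ) * (r j * c) ≤ e' * P.ord (z (t j) (r j)) := by
        calc (e' : ℝ) * (r j * c) = r j * (e' * c) := by ring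
          _ ≤ _ := h7.trans h4
      exact le_of_mul_le_mul_left h8 he'
    change (R : ℝ) * c ≤ P.ord (z (t j) (r j) ^ q j)
    rw [P.ord_pow, ← hrq j]
    push_cast
    have h7 := mul_le_mul_of_nonneg_left h6 (Nat.cast_nonneg (α := ℝ) (q j))
    nlinarith

end desc

end Pool.Agent.X180.Orb
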