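import Pool.Agent.X180.Orb.Unit

/-!
Determinants of the lifts of regular vector fields.
-/

set_option autoImplicit false
set_option linter.overlappingInstances false
set_option linter.unusedSectionVars false

open FF MvPolynomial Pool.Agent.W602.GT Pool.Agent.W603.LV Pool.Agent.TH585.SV
open Pool.Agent.W619.PQ Pool.Agent.W619.Y
open Pool.Agent.Y172
open Pool.Agent.Y191

namespace Pool.Agent.X180.Orb

section

variable {K K' : Type} [Field K] [Field K'] [Algebra ℂ K] [Algebra ℂ K'] [Algebra K K']
  [IsScalarTower ℂ K K'] {L : IntermediateField ℂ K} {e : ℕ} [FiniteDimensional K K']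

/-- **The determinant of the logarithmic derivatives.** -/
theorem lift_det_gen {P : Place ℂ K} {Q : Place ℂ K'} {ε : ℕ}
    (hQ : Over Q P ε) {G : Fin e → Derivation L K K} (hG : ∀ i f, P.Reg f → P.Reg (G i f))
    {G' : Fin e → Derivation (upF K' L) K' K'}
    (hG' : ∀ i f, G' i (algebraMap K K' f) = algebraMap K K' (G i f)) {f : Fin e → K'} :
    Ge Q (-ε) (Matrix.of fun i l => G' i (f l) / f l).det ∧
      ((∀ z ∈ L, z ≠ 0 → P.ord z = 0) → (∀ l, Q.ord (f l) = 0) →
        (AlgebraicIndependent (upF K' L) f → ∃ z : K', z ≠ 0 ∧ Q.ord z ≠ 0 ∧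
          IsAlgebraic (IntermediateField.adjoin (upF K' L) (Set.range f)) z) →
        Ge Q (1 - ε) (Matrix.of fun i l => G' i (f l) / f l).det) := by
  classical
  obtain ⟨M, N, hlog, hMN, hM⟩ := reg_to_log2 (D := fun i => (G i).restrictScalars ℂ)
    (P := P) (fun i f hf => hG i f hf)
  obtain ⟨E', hE'⟩ : ∃ E' : Fin e → Derivation ℂ K' K', E' = fun i =>
    ∑ j, algebraMap K K' (N i j) • (G' j).restrictScalars ℂ := ⟨_, rfl⟩
  have hEv : ∀ i z, E' i z = ∑ j, algebraMap K K' (N i j) * G' j z := by
    intro i z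
    rw [hE', sum_smul_apply]
    rfl
  have hElift : ∀ i z, E' i (algebraMap K K' z) =
      algebraMap K K' ((∑ j, N i j • (G j).restrictScalars ℂ : Derivation ℂ K K) z) := by
    intro i z
    rw [hEv, sum_smul_apply, map_sum]
    refine Finset.sum_congr rfl fun j _ => ?_
    rw [hG', map_mul]
    rfl
  have hElog : ∀ i, DerLog Q (E' i) := fun i => lift_log hQ (hlog i) (hElift i)
  have hkill : ∀ i, Kills (E' i) (upF K' L) := by
    intro i z hz
    rw [hEv]
    refine Finset.sum_eq_zero fun j _ => ?_
    have h1 : G' j z = 0 := (G' j).map_algebraMap (⟨z, hz⟩ : upF K' L)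
    rw [h1, mul_zero]
  have hGE : ∀ i z, G' i z = ∑ j, algebraMap K K' (M i j) * E' j z := by
    intro i z
    simp only [hEv, Finset.mul_sum]
    rw [Finset.sum_comm]
    have h1 : ∀ l, ∑ j, algebraMap K K' (M i j) * (algebraMap K K' (N j l) * G' l z) =
        (if i = l then 1 else 0) * G' l z := by
      intro l
      have h2 := congrFun (congrFun hMN i) l
      rw [Matrix.mul_apply, Matrix.one_apply] at h2
      have h3 := congrArg (algebraMap K K') h2
      rw [map_sum, apply_ite (algebraMap K K'), map_one, map_zero] at h3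
      rw [← h3, Finset.sum_mul]
      refine Finset.sum_congr rfl fun j _ => ?_
      rw [map_mul, mul_assoc]
    simp only [h1]
    simp
  have hdet : (Matrix.of fun i l => G' i (f l) / f l).det =
      algebraMap K K' M.det * (Matrix.of fun i l => E' i (f l) / f l).det := by
    rw [RingHom.map_det, ← Matrix.det_mul]
    congr 1
    ext i l
    rw [Matrix.mul_apply, Matrix.of_apply, hGE, Finset.sum_div]
    refine Finset.sum_congr rfl fun j _ => ?_
    rw [RingHom.mapMatrix_apply, Matrix.map_apply, Matrix.of_apply, mul_div_assoc]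
  have hMge : Ge Q (-ε) (algebraMap K K' M.det) := by
    have h1 := (over_ge hQ).2 hM
    rwa [mul_neg, mul_one] at h1
  rw [hdet]
  constructor
  · have h1 : Ge Q 0 (Matrix.of fun i l => E' i (f l) / f l).det := by
      refine ge_det' Q _ 0 (fun _ _ => 0) (fun i l => ?_) fun _ => by simp
      exact (reg_iff_ge _ _).1 (hElog i (f l))
    have h2 := hMge.mul h1
    rwa [add_zero] at h2
  · intro htr hu hdep
    have hup : ∀ z ∈ upF K' L, z ≠ 0 → Q.ord z = 0 := by
      intro z hz hz0
      obtain ⟨a, ha, rfl⟩ := mem_upF.1 hz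
      have ha0 : a ≠ 0 := fun h => hz0 (by rw [h, map_zero])
      rw [hQ.2, htr a ha ha0, mul_zero]
    have h1 := det_log_gen hup hElog hkill (f := f)
      (fun l => Or.inr (hu l).ge) hdep
    have h2 : (Matrix.of fun i l => E' i (f l) / f l).det =
        (Matrix.of fun i l => E' i (f l)).det * ∏ l, (f l)⁻¹ := by
      have h3 : (Matrix.of fun i l => E' i (f l) / f l) =
          (Matrix.of fun i l => E' i (f l)) * Matrix.diagonal fun l => (f l)⁻¹ := by
        ext i l
        rw [Matrix.mul_diagonal, Matrix.of_apply, Matrix.of_apply, div_eq_mul_inv]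
      rw [h3, Matrix.det_mul, Matrix.det_diagonal]
    have h3 : Ge Q 0 (∏ l, (f l)⁻¹) := by
      have := Ge.prod (P := Q) Finset.univ (fun l => (f l)⁻¹) (fun _ => 0) (fun l _ =>
        Or.inr (by rw [Q.ord_inv, hu, neg_zero]))
      simpa using this
    rw [h2]
    have h4 := hMge.mul (h1.mul h3)
    refine h4.mono (le_of_eq ?_)
    ring

end

end Pool.Agent.X180.Orb
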