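import Pool.Agent.X180.Orb.Rs

/-!
The estimate of the forms from an orbifold log canonical arrangement.
-/

set_option autoImplicit false
set_option linter.overlappingInstances false
set_option linter.unusedSectionVars false

open FF Pool.Agent.W602.GT Pool.Agent.W603.LV Pool.Agent.W619.PQ Pool.Agent.TH585.SV
open Pool.Agent.Y172 Pool.Agent.Y191 Pool.Agent.X180.Iso Pool.Agent.X180.Tow

namespace Pool.Agent.X180.Orb

section

variable {K K' : Type} [Field K] [Field K'] [Algebra ℂ K] [Algebra ℂ K'] [Algebra K K']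
  [IsScalarTower ℂ K K'] [FiniteDimensional K K'] {c : ℕ} {r q : Fin c → ℕ}
variable {A : ∀ j, Fin (q j) → Fin (r j + 1) → K'} {u : (Σ j, Fin (r j)) → K'}
variable {L : IntermediateField ℂ K} {w : ∀ j, Fin (q j) → ℚ}

/-- the estimate of the forms -/
theorem movf_est {d M : ℕ} (hA : LcArr (upF K' L) A w) (hw0 : ∀ j i, 0 ≤ w j i)
    (hws : ∀ j, (r j + 1 : ℚ) ≤ ∑ i, w j i) (hl : ∀ j i, lmv A u j i ≠ 0) (σ : (Σ j, Fin (r j)) ≃ Fin d)
    {P : Place ℂ K} {Q : Place ℂ K'} {ε : ℕ} (hQ : Over Q P ε) {x : ℝ} (hx : 0 ≤ x)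
    (hH : (∀ f ∈ L, f ≠ 0 → P.ord f = 0) →
      ∀ (c' : Fin c → ℤ) (e : ∀ j, Fin (q j) → ℕ),
        (∀ j, MOrd Q (A j) (hcd u j) (c' j) (e j)) → (ε : ℝ) * (1 - x) ≤
          if ∃ j i, e j i ≠ 0 then ∑ j, ((mx A j (e j) : ℝ) - ∑ i, (w j i : ℝ) * e j i) else 1)
    {G : Fin d → Derivation L K K} (hG : ∀ i f, P.Reg f → P.Reg (G i f))
    {G' : Fin d → Derivation (upF K' L) K' K'}
    (hG' : ∀ i f, G' i (algebraMap K K' f) = algebraMap K K' (G i f))
    (hdep : ∀ I : ∀ j, Fin (r j + 1) → Fin (q j),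
      AlgebraicIndependent (upF K' L) (fun l => quo A u I (σ.symm l)) →
        ∃ z : K', z ≠ 0 ∧ Q.ord z ≠ 0 ∧ IsAlgebraic (IntermediateField.adjoin (upF K' L)
          (Set.range fun l => quo A u I (σ.symm l))) z)
    {v : ∀ j, Fin (q j) → ℕ} (hadm : (∀ j, ∑ i, v j i = (r j + 1) * M) ∧
      ∀ j i, (v j i : ℚ) ≤ M * w j i)
    {J : Fin M → ∀ j, Fin (r j + 1) → Fin (q j)}
    (hJ : ∀ j (f : Fin (q j) → K'), ∏ t, ∏ k, f (J t j k) = ∏ i, f i ^ v j i) :
    movf σ A u M v (∏ t, cdet A (J t)) (fun i => (G' i).restrictScalars ℂ) = 0 ∨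
      -((M : ℝ) * (ε * x)) ≤ (Q.ord (movf σ A u M v (∏ t, cdet A (J t))
        fun i => (G' i).restrictScalars ℂ) : ℝ) := by
  classical
  have hkA : ∀ l j i k, ((G' l).restrictScalars ℂ) (A j i k) = 0 := fun l j i k =>
    der_alg (G' l) ((hA.1 j i).2 k)
  have hM0 : (0 : ℝ) ≤ M := Nat.cast_nonneg _
  have hε0 : (0 : ℝ) ≤ ε := Nat.cast_nonneg _
  by_cases htr : ∀ f ∈ L, f ≠ 0 → P.ord f = 0
  · have hup : ∀ f ∈ upF K' L, f ≠ 0 → Q.ord f = 0 := by
      rintro f hf hf0
      obtain ⟨a, ha, rfl⟩ := mem_upF.1 hf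
      have ha0 : a ≠ 0 := fun h => hf0 (by rw [h, map_zero])
      rw [hQ.2, htr a ha ha0, mul_zero]
    have hAge : ∀ j i k, Ge Q 0 (A j i k) := fun j i k => triv_ge hup ((hA.1 j i).2 k)
    have hC : Ge Q 0 (∏ t, cdet A (J t)) := by
      have := Ge.prod (P := Q) Finset.univ (fun t => cdet A (J t)) (fun _ => 0)
        (fun t _ => triv_ge hup (hA.alg_cdet (J t)))
      simpa using this
    have ho : ∀ j, ∃ c' ε, MOrd Q (A j) (hcd u j) c' ε := fun j =>
      exists_mord (hAge j) ⟨0, by rw [hcd_zero]; exact one_ne_zero⟩ (hl j)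
    choose c' e' ho using ho
    have hlo : ∀ j i, Q.ord (lmv A u j i) = c' j + e' j i := fun j i => (ho j).2.2 i
    have hH' := hH htr c' e' ho
    have hbas : ∀ j, ∃ I : Fin (r j + 1) → Fin (q j),
        (Matrix.of fun k a => A j (I k) a).det ≠ 0 ∧ mx A j (e' j) = ∑ k, e' j (I k) := by
      intro j
      obtain ⟨I, hI, -⟩ := hA.pos_basis hw0 hws j
      obtain ⟨I', hI', h2⟩ := Finset.exists_mem_eq_sup (Finset.univ.filter
        fun I : Fin (r j + 1) → Fin (q j) => (Matrix.of fun k a => A j (I k) a).det ≠ 0)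
        ⟨I, Finset.mem_filter.2 ⟨Finset.mem_univ _, hI⟩⟩ fun I => ∑ k, e' j (I k)
      exact ⟨I', (Finset.mem_filter.1 hI').2, h2⟩
    choose I hI hIm using hbas
    have hd : ∀ j, (Matrix.of fun k a => A j (I j k) a).det ≠ 0 ∧
        Q.ord (Matrix.of fun k a => A j (I j k) a).det = 0 := fun j =>
      ⟨hI j, triv_ord0 hup (alg_det fun k a => (hA.1 _ _).2 _) (hI j)⟩
    by_cases he : ∃ j i, e' j i ≠ 0
    · rw [if_pos he] at hH'
      have h1 := movf_lc σ hadm.1 hC hd hl hkA (ν := ε)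
        (lift_det_gen (f := fun l => quo A u I (σ.symm l)) hQ hG hG').1 ho
      rcases h1 with h1 | h1
      · exact Or.inl h1
      right
      have h3 : ((∑ j, ((M : ℤ) * ∑ k, (e' j (I j k) : ℤ) - ∑ i, (v j i : ℤ) * e' j i) -
          M * (ε : ℤ) : ℤ) : ℝ) ≤
          (Q.ord (movf σ A u M v (∏ t, cdet A (J t))
            fun i => (G' i).restrictScalars ℂ) : ℝ) := by exact_mod_cast h1
      refine le_trans ?_ h3
      push_cast
      have h4 : (M : ℝ) * ∑ j, ((mx A j (e' j) : ℝ) - ∑ i, (w j i : ℝ) * e' j i) ≤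
          ∑ j, ((M : ℝ) * ∑ k, (e' j (I j k) : ℝ) - ∑ i, (v j i : ℝ) * e' j i) := by
        rw [Finset.mul_sum]
        refine Finset.sum_le_sum fun j _ => ?_
        rw [hIm j, mul_sub, Finset.mul_sum (f := fun i => (w j i : ℝ) * e' j i)]
        push_cast
        refine sub_le_sub_left (Finset.sum_le_sum fun i _ => ?_) _
        have h5 : (v j i : ℝ) ≤ M * w j i := by exact_mod_cast hadm.2 j i
        have h6 : (0 : ℝ) ≤ e' j i := Nat.cast_nonneg _
        nlinarith
      have h5 := mul_le_mul_of_nonneg_left hH' hM0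
      nlinarith
    · rw [if_neg he] at hH'
      push Not at he
      have h1 := movf_lc σ hadm.1 hC hd hl hkA (ν := ε - 1) (by
        have h2 := (lift_det_gen (f := fun l => quo A u I (σ.symm l)) hQ hG hG').2 htr
          (fun l => by
            change Q.ord (lmv A u _ _ / lmv A u _ _) = 0
            rw [Q.ord_div (hl _ _) (hl _ _), hlo, hlo, he, he, sub_self]) (hdep I)
        rw [neg_sub]
        exact h2) ho
      rcases h1 with h1 | h1
      · exact Or.inl h1
      right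
      have h2 : ∑ j, ((M : ℤ) * ∑ k, (e' j (I j k) : ℤ) - ∑ i, (v j i : ℤ) * e' j i) = 0 :=
        Finset.sum_eq_zero fun j _ => by simp [he]
      rw [h2, zero_sub] at h1
      have h3 : ((-(M * ((ε : ℤ) - 1)) : ℤ) : ℝ) ≤
          (Q.ord (movf σ A u M v (∏ t, cdet A (J t))
            fun i => (G' i).restrictScalars ℂ) : ℝ) := by exact_mod_cast h1
      refine le_trans ?_ h3
      push_cast
      have h5 := mul_le_mul_of_nonneg_left hH' hM0
      nlinarith
  · push Not at htr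
    obtain ⟨a, haL, ha0, hao⟩ := htr
    have h1 : ∀ l, DerLog Q ((G' l).restrictScalars ℂ) := by
      intro l
      have h2 : DerLog P ((G l).restrictScalars ℂ) := by
        intro f
        by_cases hf : f = 0
        · left
          rw [hf, div_zero]
        · exact log_of_const (a := a) (fun f hf => hG l f hf)
            ((G l).map_algebraMap (⟨a, haL⟩ : L)) hao hf
      exact lift_log hQ h2 (fun f => hG' l f)
    have h2 := movf_log σ hJ hl hkA (P := Q) fun l f hf => (reg_iff_ge _ _).1 (h1 l f)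
    rcases h2 with h2 | h2
    · exact Or.inl h2
    · right
      have h3 : (0 : ℝ) ≤ (Q.ord (movf σ A u M v (∏ t, cdet A (J t))
          fun i => (G' i).restrictScalars ℂ) : ℝ) := by exact_mod_cast h2
      have h4 := mul_nonneg hM0 (mul_nonneg hε0 hx)
      linarith

end

end Pool.Agent.X180.Orb
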