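import Pool.Agent.X180.Orb.Der
import Pool.Agent.X180.Tow.Sys
import Pool.Agent.Y191.LcLow

/-!
Forms of a subfield along the fibres, which are estimated at the prime divisors of the variety:
orbifold log canonical arrangements.
-/

set_option autoImplicit false
set_option linter.overlappingInstances false
set_option linter.unusedSectionVars false

open FF Pool.Agent.W602.GT Pool.Agent.W603.LV Pool.Agent.W619.PQ Pool.Agent.TH585.SV
open Pool.Agent.Y172 Pool.Agent.Y191 Pool.Agent.X180.Iso Pool.Agent.X180.Tow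

namespace Pool.Agent.X180.Orb

section defs

variable {K : Type} [Field K] [Algebra ℂ K]

/-- Forms of the subfield `E` along the fibres over `L`, with values which are algebraic over `E`,
which are estimated on the vector fields of `K`. -/
def HasPart (N : ℕ) (X : Set (Place ℂ K)) (δ : Place ℂ K → ℝ) (E L : IntermediateField ℂ K)
    (d lam : ℕ) : Prop :=
  ∃ M : ℕ, 0 < M ∧ ∃ t : Fin d → E, IsTranscendenceBasis (dn E L) t ∧ ∃ v : Fin (lam + 1) → K,
    (∀ b, v b ≠ 0) ∧ (∀ b, IsAlgebraic E (v b)) ∧
    AlgebraicIndependent L (fun i : Fin lam => v i.succ / v 0) ∧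
    ∀ P ∈ X, Divisorial N P → ∀ D : Fin d → Derivation ℂ K K, (∀ i, DerReg P (D i)) →
      (∀ i, ∀ f ∈ L, D i f = 0) → ∀ b,
      GeR P (-(M * δ P)) ((mtx (fun j => ((t j : E) : K)) D).det ^ M * v b)

end defs

section

variable {K K' : Type} [Field K] [Field K'] [Algebra ℂ K] [Algebra ℂ K'] [Algebra K K']
  [IsScalarTower ℂ K K'] [FiniteDimensional K K'] {c : ℕ} {r q : Fin c → ℕ}
variable {A : ∀ j, Fin (q j) → Fin (r j + 1) → K'} {u : (Σ j, Fin (r j)) → K'}
variable {L E : IntermediateField ℂ K} {w : ∀ j, Fin (q j) → ℚ}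

/-- the image of a transcendence basis of `E` over `L` -/
theorem ind_t {d : ℕ} (hLE : L ≤ E) {t : Fin d → E} (ht : IsTranscendenceBasis (dn E L) t) :
    AlgebraicIndependent (upF K' L) (fun j => algebraMap K K' ((t j : E) : K)) := by
  have h1 : AlgebraicIndependent (dn E L) (fun j => ((t j : E) : K)) :=
    ht.1.map' (f := IsScalarTower.toAlgHom (dn E L) E K) (algebraMap E K).injective
  have h2 : AlgebraicIndependent (upF K (dn E L)) (fun j => ((t j : E) : K)) := ai_up.2 h1
  rw [up_dn hLE] at h2
  have h3 : AlgebraicIndependent L (fun j => algebraMap K K' ((t j : E) : K)) :=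
    h2.map' (f := IsScalarTower.toAlgHom L K K') (algebraMap K K').injective
  exact ai_up.2 h3

theorem alg_E {d : ℕ} (hLE : L ≤ E) {t : Fin d → E} (ht : IsTranscendenceBasis (dn E L) t)
    {z : K'} (hz : z ∈ upF K' E) : IsAlgebraic (IntermediateField.adjoin (upF K' L)
      (Set.range fun j => algebraMap K K' ((t j : E) : K))) z := by
  obtain ⟨a, ha, rfl⟩ := mem_upF.1 hz
  obtain ⟨T, hT⟩ : ∃ T : IntermediateField (upF K' L) K', T = IntermediateField.adjoin (upF K' L)
      (Set.range fun j => algebraMap K K' ((t j : E) : K)) := ⟨_, rfl⟩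
  rw [← hT]
  have h1 : IsAlgebraic (IntermediateField.adjoin (dn E L) (Set.range t)) (⟨a, ha⟩ : E) :=
    ht.isAlgebraic_field.isAlgebraic _
  have h2 : ∀ w ∈ IntermediateField.adjoin (dn E L) (Set.range t),
      algebraMap K K' ((w : E) : K) ∈ T := by
    intro w hw
    induction hw using IntermediateField.adjoin_induction with
    | mem x hx =>
      obtain ⟨j, rfl⟩ := hx
      rw [hT]
      exact IntermediateField.subset_adjoin _ _ ⟨j, rfl⟩
    | algebraMap x =>
      exact T.algebraMap_mem ⟨algebraMap K K' ((x : E) : K), mem_upF.2 ⟨((x : E) : K), x.2, rfl⟩⟩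
    | add x y _ _ h1 h2 =>
      rw [show ((x + y : E) : K) = (x : K) + y from rfl, map_add]
      exact add_mem h1 h2
    | inv x _ h1 =>
      rw [show ((x⁻¹ : E) : K) = (x : K)⁻¹ from rfl, map_inv₀]
      exact inv_mem h1
    | mul x y _ _ h1 h2 =>
      rw [show ((x * y : E) : K) = (x : K) * y from rfl, map_mul]
      exact mul_mem h1 h2
  let i : IntermediateField.adjoin (dn E L) (Set.range t) →+* T :=
    ((algebraMap K K').comp ((E.val : E →+* K).comp
      (IntermediateField.adjoin (dn E L) (Set.range t)).val.toRingHom)).codRestrict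
      T.toSubfield fun w => h2 w w.2
  exact h1.ringHom_of_comp_eq i ((algebraMap K K').comp (E.val : E →+* K)) i.injective rfl

theorem T_le {d : ℕ} (hLE : L ≤ E) {t : Fin d → E} {z : K'}
    (hz : z ∈ IntermediateField.adjoin (upF K' L)
      (Set.range fun j => algebraMap K K' ((t j : E) : K))) : z ∈ upF K' E := by
  induction hz using IntermediateField.adjoin_induction with
  | mem x hx =>
    obtain ⟨j, rfl⟩ := hx
    exact mem_upF.2 ⟨_, (t j).2, rfl⟩
  | algebraMap x =>
    obtain ⟨a, ha, h⟩ := mem_upF.1 x.2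
    exact mem_upF.2 ⟨a, hLE ha, h⟩
  | add x y _ _ h1 h2 => exact add_mem h1 h2
  | inv x _ h1 => exact inv_mem h1
  | mul x y _ _ h1 h2 => exact mul_mem h1 h2

end

end Pool.Agent.X180.Orb
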