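import Pool.Agent.X180.Orb.Part

/-!
Restriction of scalars of subfields.
-/

set_option autoImplicit false
set_option linter.overlappingInstances false
set_option linter.unusedSectionVars false

open Pool.Agent.X180.Iso

namespace Pool.Agent.X180.Orb

variable {F : Type} [Field F] [Algebra ℂ F] {U : IntermediateField ℂ F}

theorem alg_rs {T : IntermediateField U F} {z : F} (h : IsAlgebraic T z) :
    IsAlgebraic (T.restrictScalars ℂ) z := by
  let i : T →+* (T.restrictScalars ℂ : IntermediateField ℂ F) :=
    (T.val.toRingHom).codRestrict (T.restrictScalars ℂ).toSubfield fun w => w.2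
  exact h.ringHom_of_comp_eq i (RingHom.id F) i.injective rfl

theorem rs_alg {T : IntermediateField U F} {z : F} (h : IsAlgebraic (T.restrictScalars ℂ) z) :
    IsAlgebraic T z := by
  let i : (T.restrictScalars ℂ : IntermediateField ℂ F) →+* T :=
    ((T.restrictScalars ℂ).val.toRingHom).codRestrict T.toSubfield fun w => w.2
  exact h.ringHom_of_comp_eq i (RingHom.id F) i.injective rfl

/-- the identity -/
def rsE (T : IntermediateField U F) : T ≃+* (T.restrictScalars ℂ : IntermediateField ℂ F) where
  toFun w := ⟨w, w.2⟩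
  invFun w := ⟨w, w.2⟩
  left_inv _ := rfl
  right_inv _ := rfl
  map_mul' _ _ := rfl
  map_add' _ _ := rfl

theorem rsE_comp (T : IntermediateField U F) : RingHom.comp
    (algebraMap (T.restrictScalars ℂ : IntermediateField ℂ F) F)
      (rsE T : T →+* (T.restrictScalars ℂ : IntermediateField ℂ F)) =
    RingHom.comp (RingHom.id F) (algebraMap T F) := rfl

theorem ai_rs {T : IntermediateField U F} {ι : Type} {u : ι → F} :
    AlgebraicIndependent (T.restrictScalars ℂ) u ↔ AlgebraicIndependent T u :=
  algebraicIndependent_ringHom_iff_of_comp_eq (rsE T) (RingHom.id F) Function.injective_id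
    (rsE_comp T)

theorem tb_rs {T : IntermediateField U F} {ι : Type} {u : ι → F}
    (h : IsTranscendenceBasis T u) : IsTranscendenceBasis (T.restrictScalars ℂ) u :=
  ⟨ai_rs.2 h.1, fun s hs hr => h.2 s (ai_rs.1 hs) hr⟩

theorem alg_trans {T : IntermediateField U F} {E' : IntermediateField ℂ F}
    (h : ∀ z ∈ E', IsAlgebraic T z) {z : F} (hz : IsAlgebraic E' z) : IsAlgebraic T z := by
  have h1 : E' ≤ Acl (T.restrictScalars ℂ) := fun w hw => mem_acl.2 (alg_rs (h w hw))
  exact rs_alg (mem_acl.1 (acl_acl (alg_mono h1 hz)))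

theorem alg_of_le {T : IntermediateField U F} {E' : IntermediateField ℂ F}
    (h : ∀ z ∈ T, z ∈ E') {z : F} (hz : IsAlgebraic T z) : IsAlgebraic E' z :=
  alg_mono (S := T.restrictScalars ℂ) (fun z hz => h z hz) (alg_rs hz)

theorem alg_base {T : IntermediateField U F} {z : F} (hz : IsAlgebraic U z) : IsAlgebraic T z := by
  have h1 : U ≤ T.restrictScalars ℂ := fun z hz => T.algebraMap_mem ⟨z, hz⟩
  exact rs_alg (alg_mono h1 hz)

theorem base_le (T : IntermediateField U F) : U ≤ T.restrictScalars ℂ :=
  fun z hz => T.algebraMap_mem ⟨z, hz⟩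

end Pool.Agent.X180.Orb
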