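import Pool.Agent.X180.Orb.Sum

/-!
Composition of forms along the fibres, where the lower step is estimated on the variety.
-/

set_option autoImplicit false
set_option linter.overlappingInstances false
set_option linter.unusedSectionVars false

open FF Pool.Agent.W602.GT Pool.Agent.W603.LV Pool.Agent.W619.PQ Pool.Agent.W619.Y
open Pool.Agent.TH585.SV Pool.Agent.Y172 Pool.Agent.Y191 Pool.Agent.X180.Iso Pool.Agent.X180.Tow

namespace Pool.Agent.X180.Orb

variable {K : Type} [Field K] [Algebra ℂ K]

/-- **Composition of forms along the fibres.** -/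
theorem tower_part {E L : IntermediateField ℂ K} (hLE : L ≤ E) {N d e κ lam : ℕ}
    (he : Algebra.trdeg E K = e)
    {X : Set (Place ℂ K)} {δ₁ δ₂ δ : Place ℂ K → ℝ} (hδ : ∀ P ∈ X, δ₁ P + δ₂ P ≤ δ P)
    (hη : HasPart N X δ₁ E L d κ) (hθ : HasForms N X δ₂ E e lam) :
    HasForms N X δ L (d + e) (κ + lam) := by
  classical
  have hcLE : CharZero (dn E L) :=
    charZero_of_injective_algebraMap (algebraMap ℂ (dn E L)).injective
  have hcE : CharZero E := charZero_of_injective_algebraMap (algebraMap ℂ E).injective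
  obtain ⟨M, hM, t, ht, v, hv, hvE, hvi, hvest⟩ := hη
  obtain ⟨m, hm, θ, hθ, G2, hG2, hind2⟩ := hθ
  obtain ⟨u, Dv, hu, hDv⟩ := exists_crd (k := E) (K := K) he
  obtain ⟨t', ht'⟩ : ∃ t' : Fin d → K, t' = fun j => ((t j : E) : K) := ⟨_, rfl⟩
  have hUL : ∀ f, f ∈ upF K (dn E L) → f ∈ L := fun f hf => by rwa [up_dn hLE] at hf
  -- the forms on the frames
  have hθ' : ∀ (G : Fin e → Derivation E K K) b,
      θ b G = (Matrix.of fun i l => G i (u l)).det ^ m * θ b Dv := fun G b =>
    pluri_coord hu hDv (hθ b).1 G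
  have hdet2 : (Matrix.of fun i l => G2 i (u l) : Matrix (Fin e) (Fin e) K).det ^ m ≠ 0 := by
    intro h0
    apply hG2
    rw [hθ', h0, zero_mul]
  have hθ0 : θ 0 Dv ≠ 0 := by
    intro h0
    apply hG2
    rw [hθ', h0, mul_zero]
  have hi2 : AlgebraicIndependent E (fun i : Fin lam => θ i.succ Dv / θ 0 Dv) := by
    have e1 : (fun i : Fin lam => θ i.succ G2 / θ 0 G2) =
        fun i : Fin lam => θ i.succ Dv / θ 0 Dv := by
      funext i
      rw [hθ' G2 i.succ, hθ' G2 0, mul_div_mul_left _ _ hdet2]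
    rwa [e1] at hind2
  have hv0 : v 0 ≠ 0 := hv 0
  -- the sections
  obtain ⟨g, hg⟩ : ∃ g : Fin (κ + 1) → Fin (lam + 1) → K, ∀ a b, g a b =
      v 0 ^ (m - 1) * v a * (θ 0 Dv ^ (M - 1) * θ b Dv) := ⟨_, fun _ _ => rfl⟩
  have hsec : ∀ a b, FibSec N (M * m) X δ (upF K (dn E L)) (fun D : Fin (d + e) →
      Derivation (upF K (dn E L)) K K => pf t' u M m (g a b) (fun i => rs (D i))) := by
    intro a b
    refine ⟨fun A D => ?_, fun P hPX hPd D hD => ?_⟩
    · change pf t' u M m (g a b) (fun i => rs (∑ j, A i j • D j)) = _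
      rw [← pf_pluri t' u M m (g a b) A fun i => rs (D i)]
      congr 1
      funext i
      exact rs_sum _ _
    by_cases h0 : (big t' u (fun i => rs (D i))).det = 0
    · left
      change g a b * (big t' u (fun i => rs (D i))).det ^ (M * m) = 0
      rw [h0, zero_pow (Nat.mul_pos hM hm).ne', mul_zero]
    obtain ⟨E₁, G, hE₁, hG, hE₁L, hGL, hGt, hdet⟩ := split_gen (P := P)
      (D := fun i => rs (D i)) (fun i f hf => hD i f hf) h0 (upF K (dn E L) : Set K)
      (fun i f hf => rs_kills (D i) hf)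
    have hGE : ∀ i, ∀ f ∈ E, G i f = 0 := fun i => vert_kills ht (hGL i) fun j => by
      have := hGt i j
      rw [ht'] at this
      exact this
    obtain ⟨Gv, hGv⟩ : ∃ Gv : Fin e → Derivation E K K, ∀ l f, Gv l f = G l f :=
      ⟨fun l => lft E (G l) (hGE l), fun _ _ => rfl⟩
    have h1 : ∀ b, GeR P (-(m * δ₂ P)) ((mtx u G).det ^ m * θ b Dv) := by
      intro b
      have h2 := (hθ b).2 P hPX hPd Gv (fun i f hf => by rw [hGv]; exact hG i f hf)
      have h3 : θ b Gv = (mtx u G).det ^ m * θ b Dv := by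
        have h4 : (Matrix.of fun i l => Gv i (u l)) = mtx u G :=
          Matrix.ext fun i l => hGv i (u l)
        rw [hθ', h4]
      rw [h3] at h2
      exact h2
    have h2 : ∀ a, GeR P (-(M * δ₁ P)) ((mtx t' E₁).det ^ M * v a) := by
      intro a
      rw [ht']
      refine hvest P hPX hPd E₁ hE₁ (fun i f hf => hE₁L i _ ?_) a
      rw [up_dn hLE]
      exact hf
    have h3 := (((h2 0).pow (m - 1)).mul (h2 a)).mul (((h1 0).pow (M - 1)).mul (h1 b))
    have e1 : ((mtx t' E₁).det ^ M * v 0) ^ (m - 1) * ((mtx t' E₁).det ^ M * v a) *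
        (((mtx u G).det ^ m * θ 0 Dv) ^ (M - 1) * ((mtx u G).det ^ m * θ b Dv)) =
        g a b * ((mtx t' E₁).det * (mtx u G).det) ^ (M * m) := by
      rw [hg]
      obtain ⟨m', rfl⟩ := Nat.exists_eq_succ_of_ne_zero hm.ne'
      obtain ⟨M', rfl⟩ := Nat.exists_eq_succ_of_ne_zero hM.ne'
      simp only [Nat.succ_eq_add_one, Nat.add_sub_cancel]
      have e2 : (mtx t' E₁).det ^ ((M' + 1) * (m' + 1)) =
          ((mtx t' E₁).det ^ (M' + 1)) ^ m' * (mtx t' E₁).det ^ (M' + 1) := by
        rw [← pow_mul, ← pow_add]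
        congr 1
      have e3 : (mtx u G).det ^ ((M' + 1) * (m' + 1)) =
          ((mtx u G).det ^ (m' + 1)) ^ M' * (mtx u G).det ^ (m' + 1) := by
        rw [← pow_mul, ← pow_add]
        congr 1
        ring
      rw [mul_pow ((mtx t' E₁).det), e2, e3, mul_pow, mul_pow]
      ring
    rw [e1] at h3
    have h4 : GeR P (-((M * m : ℕ) * δ P)) (g a b * ((mtx t' E₁).det * (mtx u G).det) ^ (M * m)) := by
      refine h3.mono ?_
      have hM1 : ((M - 1 : ℕ) : ℝ) = M - 1 := by
        rw [Nat.cast_sub hM]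
        simp
      have hm1 : ((m - 1 : ℕ) : ℝ) = m - 1 := by
        rw [Nat.cast_sub hm]
        simp
      rw [hM1, hm1]
      push_cast
      have h5 := mul_le_mul_of_nonneg_left (hδ P hPX)
        (mul_nonneg (Nat.cast_nonneg (α := ℝ) M) (Nat.cast_nonneg (α := ℝ) m))
      nlinarith
    change GeR P (-((M * m : ℕ) * δ P)) (pf t' u M m (g a b) fun i => rs (D i))
    unfold pf
    rcases hdet with h5 | h5
    · rw [h5]
      exact h4
    · rw [h5]
      rcases Nat.even_or_odd (M * m) with h6 | h6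
      · rw [h6.neg_pow]
        exact h4
      · rw [h6.neg_pow, mul_neg]
        exact h4.neg
  have hg00 : g 0 0 ≠ 0 := by
    rw [hg]
    exact mul_ne_zero (mul_ne_zero (pow_ne_zero _ hv0) hv0)
      (mul_ne_zero (pow_ne_zero _ hθ0) hθ0)
  -- a frame of the fields over `L`
  obtain ⟨D0, hD0⟩ : ∃ D0 : Fin (d + e) → Derivation (upF K (dn E L)) K K,
      (big t' u (fun i => rs (D0 i))).det = 1 := by
    have hz : IsTranscendenceBasis (dn E L) (Sum.elim t' u) := by
      have h1 := ht.sumElim_comp hu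
      have h2 := h1.comp_equiv (Equiv.sumComm (Fin d) (Fin e))
      have h3 : Sum.elim t' u = Sum.elim u (algebraMap E K ∘ t) ∘
          Equiv.sumComm (Fin d) (Fin e) := by
        funext a
        rcases a with a | a
        · rw [ht']
          rfl
        · rfl
      rw [h3]
      exact h2
    have hz' : IsTranscendenceBasis (upF K (dn E L)) (Sum.elim t' u) := tb_up hz
    have h4 : ∀ i : Fin (d + e), ∃ D : Derivation (upF K (dn E L)) K K,
        ∀ b : Fin d ⊕ Fin e,
        D (Sum.elim t' u b) = if finSumFinEquiv.symm i = b then 1 else 0 := fun i =>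
      Pool.Agent.W602.GT.exists_der (Sum.elim t' u) hz' _
    choose D0 hD0 using h4
    refine ⟨D0, ?_⟩
    have h5 : big t' u (fun i => rs (D0 i)) = 1 := by
      ext a b
      change D0 (finSumFinEquiv a) (Sum.elim t' u b) = _
      rw [hD0, Equiv.symm_apply_apply, Matrix.one_apply]
    rw [h5, Matrix.det_one]
  have hval : ∀ z : K, pf t' u M m z (fun i => rs (D0 i)) = z := by
    intro z
    unfold pf
    rw [hD0, one_pow, mul_one]
  have key : HasForms N X δ (upF K (dn E L)) (d + e) (κ + lam) := by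
    refine ⟨M * m, Nat.mul_pos hM hm,
      Fin.cons (fun D => pf t' u M m (g 0 0) fun i => rs (D i)) fun i =>
      Sum.elim (fun i (D : Fin (d + e) → Derivation (upF K (dn E L)) K K) =>
        pf t' u M m (g i.succ 0) fun i => rs (D i))
      (fun i D => pf t' u M m (g 0 i.succ) fun i => rs (D i)) (finSumFinEquiv.symm i),
      fun j => ?_, D0, ?_, ?_⟩
    · refine Fin.cases ?_ (fun i => ?_) j
      · exact hsec 0 0
      · rw [Fin.cons_succ]
        rcases finSumFinEquiv.symm i with i | i
        · exact hsec _ _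
        · exact hsec _ _
    · rw [Fin.cons_zero, hval]
      exact hg00
    · have h0 : ∀ i, IsAlgebraic E (v (i : Fin κ).succ / v 0) := fun i => by
        rw [div_eq_mul_inv]
        exact (hvE _).mul (hvE _).inv
      have h1 := sum_ind hLE hvi h0 hi2
      have h2 := h1.comp (fun i : Fin (κ + lam) => (finSumFinEquiv.symm i).swap)
        (Sum.swap_leftInverse.injective.comp finSumFinEquiv.symm.injective)
      have h3 : AlgebraicIndependent (upF K (dn E L)) ((Sum.elim
          (fun i : Fin lam => θ i.succ Dv / θ 0 Dv) fun i : Fin κ => v i.succ / v 0) ∘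
          fun i : Fin (κ + lam) => (finSumFinEquiv.symm i).swap) := by
        rw [up_dn hLE]
        exact h2
      convert h3 using 1
      funext i
      rw [Fin.cons_succ, Fin.cons_zero, hval, Function.comp_apply]
      rcases finSumFinEquiv.symm i with i | i
      · change pf t' u M m (g i.succ 0) (fun i => rs (D0 i)) / g 0 0 = v i.succ / v 0
        rw [hval, hg, hg]
        have := pow_ne_zero (m - 1) hv0
        have := pow_ne_zero (M - 1) hθ0
        field_simp
      · change pf t' u M m (g 0 i.succ) (fun i => rs (D0 i)) / g 0 0 = θ i.succ Dv / θ 0 Dv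
        rw [hval, hg, hg]
        have := pow_ne_zero (m - 1) hv0
        have := pow_ne_zero (M - 1) hθ0
        field_simp
  rwa [up_dn hLE] at key

end Pool.Agent.X180.Orb
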